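import Mathlib
import Pool.Agent.X199.PsiMad

/-!
# A sigma-space of weight at most the continuum outside the class of separately continuous functions
-/

set_option autoImplicit false

open Set Topology Filter TopologicalSpace
open Cardinal hiding univ

namespace Pool.Agent.Results.MP_713d40_gt.SigmaSpaceNotInClass

universe u

open Pool.Agent.X199.PM

/-- `X^{<ω}`, the sum of the finite powers of `X` (only its points matter). -/
abbrev FinPow (X : Type*) : Type _ := Σ n : ℕ, (Fin n → X)

/-- The space `SC_p(X^{<ω})` of all functions on `X^{<ω}` that are separately continuous on each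
`X^n`; it carries the topology of pointwise convergence. -/
abbrev SCp (X : Type*) [TopologicalSpace X] : Type _ :=
  {f : FinPow X → ℝ // ∀ (n : ℕ) (x : Fin n → X) (i : Fin n),
    Continuous fun t : X => f ⟨n, Function.update x i t⟩}

/-- A network. -/
def IsNetwork {X : Type*} [TopologicalSpace X] (𝒩 : Set (Set X)) : Prop :=
  ∀ (x : X) (U : Set X), IsOpen U → x ∈ U → ∃ N ∈ 𝒩, x ∈ N ∧ N ⊆ U

/-- Spaces with a `σ`-locally finite network. -/
def SigmaLocallyFiniteNetwork (X : Type*) [TopologicalSpace X] : Prop :=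
  ∃ 𝒩 : ℕ → Set (Set X), (∀ n, LocallyFinite fun N : 𝒩 n => (N : Set X)) ∧
    IsNetwork (⋃ n, 𝒩 n)

/-- Two functions that are separately continuous and agree on `D^n` for a dense set `D` agree. -/
theorem eq_of_dense {M : Type*} [TopologicalSpace M] {D : Set M} (hD : Dense D) (f g : SCp M)
    (n : ℕ) (h : ∀ x : Fin n → M, (∀ i, x i ∈ D) → f.1 ⟨n, x⟩ = g.1 ⟨n, x⟩) :
    ∀ (S : Finset (Fin n)) (x : Fin n → M), (∀ i ∉ S, x i ∈ D) → f.1 ⟨n, x⟩ = g.1 ⟨n, x⟩ := by
  classical
  intro S
  induction S using Finset.induction_on with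
  | empty =>
    intro x hx
    exact h x fun i => hx i (Finset.notMem_empty i)
  | insert j S hj ih =>
    intro x hx
    have h1 : (fun t : M => f.1 ⟨n, Function.update x j t⟩) =
        fun t : M => g.1 ⟨n, Function.update x j t⟩ := by
      refine Continuous.ext_on hD (f.2 n x j) (g.2 n x j) ?_
      intro t ht
      refine ih _ ?_
      intro i hi
      by_cases hij : i = j
      · subst hij
        simpa using ht
      · rw [Function.update_of_ne hij]
        exact hx i fun h => by
          rcases Finset.mem_insert.1 h with h | h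
          · exact hij h
          · exact hi h
    have h2 := congrFun h1 (x j)
    simpa using h2

/-- `SC_p(M^{<ω})` has a continuous injection into a second countable Hausdorff space if `M` is
separable. -/
theorem exists_injection (M : Type u) [TopologicalSpace M] [SeparableSpace M] :
    ∃ (Y : Type u) (_ : TopologicalSpace Y) (_ : T2Space Y) (_ : SecondCountableTopology Y)
      (r : SCp M → Y), Continuous r ∧ Function.Injective r := by
  obtain ⟨D, hDc, hD⟩ := TopologicalSpace.exists_countable_dense M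
  have : Countable D := hDc.to_subtype
  refine ⟨(Σ n : ℕ, (Fin n → D)) → ℝ, inferInstance, inferInstance, inferInstance,
    fun f p => f.1 ⟨p.1, fun i => (p.2 i : M)⟩, ?_, ?_⟩
  · refine continuous_pi fun p => ?_
    exact (continuous_apply _).comp continuous_subtype_val
  · intro f g hfg
    refine Subtype.ext (funext ?_)
    rintro ⟨n, x⟩
    refine eq_of_dense hD f g n ?_ Finset.univ x fun i hi => absurd (Finset.mem_univ i) hi
    intro y hy
    exact congrFun hfg ⟨n, fun i => ⟨y i, hy i⟩⟩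

/-- The branch through `f`. -/
def branch (f : ℕ → Bool) : Set (List Bool) := range fun n => List.ofFn fun i : Fin n => f i

theorem branch_infinite (f : ℕ → Bool) : (branch f).Infinite := by
  refine infinite_range_of_injective ?_
  intro m n h
  have := congrArg List.length h
  simpa using this

theorem branch_inter {f g : ℕ → Bool} (h : f ≠ g) : (branch f ∩ branch g).Finite := by
  obtain ⟨k, hk⟩ := Function.ne_iff.1 h
  refine ((finite_le_nat k).image fun n => List.ofFn fun i : Fin n => f i).subset ?_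
  rintro l ⟨⟨n, rfl⟩, ⟨m, hm⟩⟩
  refine ⟨n, ?_, rfl⟩
  have hlen := congrArg List.length hm
  simp only [List.length_ofFn] at hlen
  subst hlen
  by_contra hcon
  have hkn : k < m := by
    simpa using hcon
  have := List.ofFn_injective hm
  exact hk (congrFun this ⟨k, hkn⟩).symm

theorem branch_injective : Function.Injective branch := by
  intro f g h
  by_contra hne
  have := branch_inter hne
  rw [h, inter_self] at this
  exact branch_infinite g this

theorem card_cantor : #(ℕ → Bool) = 𝔠 := by simp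

theorem exists_rec {α : Type*} [DecidableEq α] (c : ℕ → Finset α → α) :
    ∃ u : ℕ → α, ∀ n, u n = c n ((Finset.range n).image u) := by
  let s : ℕ → Finset α := fun n => Nat.rec ∅ (fun n t => insert (c n t) t) n
  refine ⟨fun n => c n (s n), fun n => ?_⟩
  have h : ∀ n, s n = (Finset.range n).image fun n => c n (s n) := by
    intro n
    induction n with
    | zero => rfl
    | succ n ih =>
      rw [Finset.range_add_one, Finset.image_insert, ← ih]
  change c n (s n) = _
  rw [← h n]

theorem exists_big_mad : ∃ 𝒜 : Set (Set (List Bool)), IsMAD 𝒜 ∧ ¬ 𝒜.Countable := by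
  obtain ⟨𝒜, h1, h2⟩ := exists_mad (range branch) ⟨by
    rintro _ ⟨f, rfl⟩
    exact branch_infinite f, by
    rintro _ ⟨f, rfl⟩ _ ⟨g, rfl⟩ hne
    exact branch_inter fun h => hne (h ▸ rfl)⟩
  refine ⟨𝒜, h2, fun hc => ?_⟩
  have h3 := hc.mono h1
  have h4 : Countable (ℕ → Bool) := by
    have : Countable (range branch) := h3.to_subtype
    exact (Equiv.ofInjective branch branch_injective).countable_iff.2 this
  have h6 := Cardinal.mk_le_aleph0_iff.2 h4
  rw [card_cantor] at h6
  exact absurd h6 (not_le.2 Cardinal.aleph0_lt_continuum)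

/-- The Mrowka-Isbell space of a maximal almost disjoint family on a countable set does not
inject continuously into a second countable Hausdorff space. -/
theorem no_injection {𝒜 : Set (Set (List Bool))} (hm : IsMAD 𝒜) (hunc : ¬ 𝒜.Countable)
    {Y : Type*} [TopologicalSpace Y] [T2Space Y] [SecondCountableTopology Y]
    (r : Psi 𝒜 → Y) (hr : Continuous r) : ¬ Function.Injective r := by
  intro hinj
  -- a member of the family whose image is a limit of images of other members
  have h1 : ∃ a : 𝒜, r (Psi.pt a) ∈ closure (r '' (Psi.pt '' {b : 𝒜 | b ≠ a})) := by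
    by_contra hcon
    push Not at hcon
    have hd : ∀ a : 𝒜, ∃ U : Set Y, IsOpen U ∧ r (Psi.pt a) ∈ U ∧
        ∀ b : 𝒜, r (Psi.pt b) ∈ U → b = a := by
      intro a
      refine ⟨(closure (r '' (Psi.pt '' {b : 𝒜 | b ≠ a})))ᶜ, isClosed_closure.isOpen_compl,
        hcon a, ?_⟩
      intro b hb
      by_contra hba
      exact hb (subset_closure ⟨_, ⟨b, hba, rfl⟩, rfl⟩)
    choose U hU1 hU2 hU3 using hd
    have h2 : ∀ a : 𝒜, ∃ V ∈ countableBasis Y, r (Psi.pt a) ∈ V ∧ V ⊆ U a := fun a =>
      (isBasis_countableBasis Y).exists_subset_of_mem_open (hU2 a) (hU1 a)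
    choose V hV1 hV2 hV3 using h2
    have hVinj : Function.Injective fun a : 𝒜 => (⟨V a, hV1 a⟩ : countableBasis Y) := by
      intro a b hab
      have hab' : V a = V b := congrArg Subtype.val hab
      exact hU3 b a (hV3 b (hab' ▸ hV2 a))
    have : Countable 𝒜 := by
      have := (countable_countableBasis Y).to_subtype
      exact hVinj.countable
    exact hunc (countable_coe_iff.1 this)
  obtain ⟨a, ha⟩ := h1
  obtain ⟨W, hW⟩ := (𝓝 (r (Psi.pt a))).exists_antitone_basis
  -- choose the isolated points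
  have h2 : ∀ (k : ℕ) (F : Finset (List Bool)), ∃ d : List Bool, d ∉ F ∧ d ∉ a.1 ∧
      r (Psi.iso 𝒜 d) ∈ W k := by
    intro k F
    obtain ⟨O, hOW, hO, haO⟩ := mem_nhds_iff.1 (hW.1.mem_of_mem (i := k) trivial)
    obtain ⟨y, hyO, ⟨_, ⟨b, hba, rfl⟩, rfl⟩⟩ := mem_closure_iff.1 ha O hO haO
    have h3 := (hO.preimage hr) b hyO
    have h4 := hm.ad b.1 b.2 a.1 a.2 fun h => hba (Subtype.ext h)
    have h5 : (b.1 \ ({d | d ∈ b.1 ∧ Psi.iso 𝒜 d ∉ r ⁻¹' O} ∪ (b.1 ∩ a.1) ∪ F)).Infinite :=
      (hm.inf b.1 b.2).sdiff ((h3.union h4).union F.finite_toSet)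
    obtain ⟨d, hd1, hd2⟩ := h5.nonempty
    refine ⟨d, fun h => hd2 (Or.inr h), fun h => hd2 (Or.inl (Or.inr ⟨hd1, h⟩)), hOW ?_⟩
    by_contra h
    exact hd2 (Or.inl (Or.inl ⟨hd1, h⟩))
  choose c hc1 hc2 hc3 using h2
  obtain ⟨u, hu⟩ := exists_rec c
  have huinj : Function.Injective u := by
    intro m n hmn
    by_contra hne
    rcases lt_or_gt_of_ne hne with h | h
    · refine hc1 n ((Finset.range n).image u) ?_
      rw [← hu n, ← hmn]
      exact Finset.mem_image_of_mem u (Finset.mem_range.2 h)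
    · refine hc1 m ((Finset.range m).image u) ?_
      rw [← hu m, hmn]
      exact Finset.mem_image_of_mem u (Finset.mem_range.2 h)
  have hlim : Tendsto (fun n => r (Psi.iso 𝒜 (u n))) atTop (𝓝 (r (Psi.pt a))) := by
    rw [hW.1.tendsto_right_iff]
    intro k _
    filter_upwards [eventually_ge_atTop k] with n hn
    refine hW.2 hn ?_
    rw [hu n]
    exact hc3 n _
  obtain ⟨b, hb, hbinf⟩ := hm.max (range u) (infinite_range_of_injective huinj)
  have hidx : {n | u n ∈ b}.Infinite := by
    intro hfin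
    refine hbinf ((hfin.image u).subset ?_)
    rintro _ ⟨hxb, ⟨n, rfl⟩⟩
    exact ⟨n, hxb, rfl⟩
  have hv1 : StrictMono (Nat.nth fun n => u n ∈ b) := Nat.nth_strictMono hidx
  have hv2 : ∀ n, u (Nat.nth (fun n => u n ∈ b) n) ∈ b := fun n => Nat.nth_mem_of_infinite hidx n
  have hl1 := hlim.comp hv1.tendsto_atTop
  have hl2 := (hr.tendsto (Psi.pt (⟨b, hb⟩ : 𝒜))).comp
    (Psi.tendsto_pt (⟨b, hb⟩ : 𝒜) (fun n => u (Nat.nth (fun n => u n ∈ b) n))
      (huinj.comp hv1.injective) hv2)
  have heq : r (Psi.pt a) = r (Psi.pt (⟨b, hb⟩ : 𝒜)) := tendsto_nhds_unique hl1 hl2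
  have hab : a = ⟨b, hb⟩ := Psi.pt_inj (hinj heq)
  have h0 := hv2 0
  rw [hu] at h0
  have h1 := hc2 (Nat.nth (fun n => u n ∈ b) 0)
    ((Finset.range (Nat.nth (fun n => u n ∈ b) 0)).image u)
  rw [hab] at h1
  exact h1 h0

theorem sigma_network (𝒜 : Set (Set (List Bool))) :
    SigmaLocallyFiniteNetwork (Psi 𝒜) := by
  obtain ⟨e, he⟩ := exists_surjective_nat (List Bool)
  refine ⟨fun n => Nat.casesOn n (range fun a : 𝒜 => ({Psi.pt a} : Set (Psi 𝒜)))
    fun m => {{Psi.iso 𝒜 (e m)}}, ?_, ?_⟩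
  · rintro (_ | m)
    · intro x
      rcases Psi.cases' x with ⟨d, rfl⟩ | ⟨a, rfl⟩
      · refine ⟨{Psi.iso 𝒜 d}, (Psi.isOpen_singleton_iso d).mem_nhds rfl, ?_⟩
        refine finite_empty.subset ?_
        rintro ⟨N, ⟨b, rfl⟩⟩ ⟨y, hy1, hy2⟩
        rw [mem_singleton_iff] at hy1 hy2
        exact absurd (hy1.symm.trans hy2) (Psi.pt_ne_iso b d)
      · refine ⟨Psi.nb a ∅, (Psi.isOpen_nb a finite_empty).mem_nhds (Or.inl rfl), ?_⟩
        refine (finite_singleton (⟨{Psi.pt a}, ⟨a, rfl⟩⟩ :
          range fun a : 𝒜 => ({Psi.pt a} : Set (Psi 𝒜)))).subset ?_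
        rintro ⟨N, ⟨b, rfl⟩⟩ ⟨y, hy1, hy2⟩
        simp only [mem_singleton_iff] at hy1
        subst hy1
        rw [Psi.pt_mem_nb] at hy2
        subst hy2
        rfl
    · exact locallyFinite_of_finite _
  · intro x U hU hx
    rcases Psi.cases' x with ⟨d, rfl⟩ | ⟨a, rfl⟩
    · obtain ⟨m, rfl⟩ := he d
      exact ⟨{Psi.iso 𝒜 (e m)}, mem_iUnion.2 ⟨m + 1, rfl⟩, rfl, by simpa using hx⟩
    · exact ⟨{Psi.pt a}, mem_iUnion.2 ⟨0, ⟨a, rfl⟩⟩, rfl, by simpa using hx⟩

theorem basis_card (𝒜 : Set (Set (List Bool))) : #(Psi.basis 𝒜) ≤ 𝔠 := by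
  refine (Cardinal.mk_union_le _ _).trans ?_
  have h1 : #(range fun d : List Bool => ({Psi.iso 𝒜 d} : Set (Psi 𝒜))) ≤ 𝔠 :=
    Cardinal.mk_range_le.trans ((Cardinal.mk_le_aleph0).trans Cardinal.aleph0_le_continuum)
  have h2 : #(range fun p : 𝒜 × Finset (List Bool) => Psi.nb p.1 (p.2 : Set (List Bool))) ≤ 𝔠 := by
    refine Cardinal.mk_range_le.trans ?_
    rw [Cardinal.mk_prod, Cardinal.lift_id, Cardinal.lift_id]
    have h3 : #𝒜 ≤ 𝔠 := by
      refine (Cardinal.mk_set_le 𝒜).trans ?_
      rw [Cardinal.mk_set, ← Cardinal.two_power_aleph0]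
      exact Cardinal.power_le_power_left two_ne_zero Cardinal.mk_le_aleph0
    have h4 : #(Finset (List Bool)) ≤ 𝔠 :=
      (Cardinal.mk_le_aleph0).trans Cardinal.aleph0_le_continuum
    calc #𝒜 * #(Finset (List Bool)) ≤ 𝔠 * 𝔠 := mul_le_mul' h3 h4
      _ = 𝔠 := Cardinal.continuum_mul_self
  calc _ ≤ 𝔠 + 𝔠 := add_le_add h1 h2
    _ = 𝔠 := Cardinal.continuum_add_self

/-- There is a Tychonoff `σ`-space of weight at most the continuum that has no continuous injection
(hence no embedding) into a space `SC_p(M^{<ω})` with `M` separable metrizable. -/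
theorem result : ∃ (X : Type) (_ : TopologicalSpace X), T35Space X ∧ SigmaLocallyFiniteNetwork X ∧
    (∃ ℬ : Set (Set X), IsTopologicalBasis ℬ ∧ #ℬ ≤ 𝔠) ∧
    (∀ (M : Type u) [TopologicalSpace M] [MetrizableSpace M] [SeparableSpace M] (f : X → SCp M),
      Continuous f → ¬ Function.Injective f) := by
  obtain ⟨𝒜, hm, hunc⟩ := exists_big_mad
  refine ⟨Psi 𝒜, inferInstance, Psi.t35 hm.toIsAD, sigma_network 𝒜,
    ⟨Psi.basis 𝒜, Psi.isTopologicalBasis, basis_card 𝒜⟩, ?_⟩
  intro M _ _ _ f hf hinj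
  obtain ⟨Y, _, _, _, r, hr, hrinj⟩ := exists_injection M
  exact no_injection hm hunc (r ∘ f) (hr.comp hf) (hrinj.comp hinj)

end Pool.Agent.Results.MP_713d40_gt.SigmaSpaceNotInClass
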